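import Mathlib
import Pool.Agent.Helper131.FreeDef
import Pool.Agent.Helper131.Fam
import Pool.Agent.Helper131.Comp
import Pool.Agent.Helper131.Bin

set_option autoImplicit false

namespace Pool.Agent.Results.MP_8b7919_co.AtLeastTwo

open Pool.Agent.Helper131 (Free)

/-- Let the alphabet have `k` letters and let `α ≥ 2` be rational; if `k = 2` and `α ≠ 2` assume
`α > 7/3`. Then every right extendable word and every left extendable word are joined by a
transition, and the transition problem is decidable. -/
theorem result (k : ℕ) (α : ℚ) (hα : 2 ≤ α) (hk : k = 2 → α ≠ 2 → 7 / 3 < α) :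
    (∀ u v : List (Fin k), {x : List (Fin k) | Free α (u ++ x)}.Infinite →
      {x : List (Fin k) | Free α (x ++ v)}.Infinite → ∃ w : List (Fin k), Free α (u ++ w ++ v)) ∧
    ComputablePred (fun q : List (Fin k) × List (Fin k) =>
      ∃ w : List (Fin k), Free α (q.1 ++ w ++ q.2)) := by
  have key : Pool.Agent.Helper131.Trans.TP k α := by
    by_cases h : k ≠ 2 ∨ α = 2 ∨ 3 < α
    · exact Pool.Agent.Helper131.Fam.TP_all hα h
    · push Not at h
      obtain ⟨rfl, h2, h3⟩ := h
      exact Pool.Agent.Helper131.Bin.TP_bin (hk rfl h2) h3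
  exact ⟨key, Pool.Agent.Helper131.Comp.decidable_of_TP (by linarith) key⟩

end Pool.Agent.Results.MP_8b7919_co.AtLeastTwo
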